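import Pool.Agent.Q92.AR.Stm2

/-! Project AR: valuations and divisors, the Artin map on divisors. -/

set_option autoImplicit false
set_option linter.unusedSectionVars false
set_option linter.deprecated false

namespace Pool.Agent.Q125.AR

open NumberField IsDedekindDomain Pool.Agent.Q5.BR Pool.Agent.Q92.AR

section
variable {F : Type} [Field F] [NumberField F]

theorem valuation_eq_exp (x : Fˣ) (v : HeightOneSpectrum (𝓞 F)) :
    v.valuation F (x : F) = WithZero.exp (- prin x v) := by
  classical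
  have key : ∀ (a : 𝓞 F) (ha : a ≠ 0), v.valuation F (algebraMap (𝓞 F) F a) =
      WithZero.exp (- FractionalIdeal.count F v
        (FractionalIdeal.spanSingleton (nonZeroDivisors (𝓞 F)) (algebraMap (𝓞 F) F a))) := by
    intro a ha
    rw [HeightOneSpectrum.valuation_of_algebraMap, HeightOneSpectrum.intValuation_if_neg _ ha,
      ← FractionalIdeal.coeIdeal_span_singleton, FractionalIdeal.count_coe]
    exact fun h => ha (Ideal.span_singleton_eq_bot.1 h)
  obtain ⟨a, b, hb, hab⟩ := IsFractionRing.div_surjective (A := 𝓞 F) (x : F)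
  have hb0 : b ≠ 0 := nonZeroDivisors.ne_zero hb
  have hb1 : algebraMap (𝓞 F) F b ≠ 0 := by
    intro h
    exact hb0 ((map_eq_zero_iff _ (FaithfulSMul.algebraMap_injective (𝓞 F) F)).1 h)
  have ha1 : algebraMap (𝓞 F) F a ≠ 0 := by
    intro h
    rw [h, zero_div] at hab
    exact x.ne_zero hab.symm
  have ha0 : a ≠ 0 := by
    rintro rfl
    exact ha1 (map_zero _)
  have hx : x = Units.mk0 _ ha1 / Units.mk0 _ hb1 := by
    apply Units.ext
    rw [Units.val_div_eq_div_val, Units.val_mk0, Units.val_mk0, hab]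
  have hp : prin x v = prin (Units.mk0 _ ha1) v - prin (Units.mk0 _ hb1) v := by
    rw [hx, prin_div, Finsupp.sub_apply]
  rw [← hab, map_div₀, key a ha0, key b hb0, hp, ← WithZero.exp_sub]
  congr 1
  rw [prin_apply, prin_apply]
  rw [Units.val_mk0, Units.val_mk0]
  ring

theorem prin_eq_zero_of_valuation {x : Fˣ} {v : HeightOneSpectrum (𝓞 F)}
    (h : v.valuation F (x : F) = 1) : prin x v = 0 := by
  rw [valuation_eq_exp] at h
  have h1 : WithZero.exp (- prin x v) = WithZero.exp (0 : ℤ) := by rw [h, WithZero.exp_zero]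
  have h2 := WithZero.exp_injective h1
  omega

theorem prin_mem_Pr {N : ℕ} {x : Fˣ} (hx : x ∈ Ray F N) : prin x ∈ Pr F N := by
  intro v hv
  exact prin_eq_zero_of_valuation (val_eq_one hv (hx.1 v hv))

theorem finite_dvd {N : ℕ} (hN : N ≠ 0) :
    {v : HeightOneSpectrum (𝓞 F) | (N : 𝓞 F) ∈ v.asIdeal}.Finite := by
  have h0 : Ideal.span {(N : 𝓞 F)} ≠ 0 := by
    intro h
    have h1 : (N : 𝓞 F) = 0 := Ideal.span_singleton_eq_bot.1 h
    exact hN (Nat.cast_eq_zero.1 h1)
  refine (Ideal.finite_factors h0).subset ?_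
  intro v hv
  exact Ideal.dvd_span_singleton.2 hv

end

section
variable {F E : Type} [Field F] [NumberField F] [Field E] [NumberField E] [Algebra F E]

theorem mem_under {N : ℕ} {w : HeightOneSpectrum (𝓞 E)} :
    (N : 𝓞 F) ∈ (w.under (𝓞 F)).asIdeal ↔ (N : 𝓞 E) ∈ w.asIdeal := by
  have h : (w.under (𝓞 F)).asIdeal = w.asIdeal.comap (algebraMap (𝓞 F) (𝓞 E)) := rfl
  rw [h, Ideal.mem_comap, map_natCast]

/-- a character takes the same value at all Frobenius elements -/
theorem chi_frob {v : HeightOneSpectrum (𝓞 F)} (hv : Unramified E v) [IsGalois F E]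
    {g g' : E ≃ₐ[F] E} (hg : IsFrobenius v g) (hg' : IsFrobenius v g') (ψ : (E ≃ₐ[F] E) →* ℂˣ) :
    ψ g = ψ g' := by
  obtain ⟨h, rfl⟩ := isFrobenius_conj hv hg hg'
  rw [map_mul, map_mul, map_inv, mul_comm, ← mul_assoc, mul_inv_cancel, one_mul]

theorem art_eq_sum (ψ : (E ≃ₐ[F] E) →* ℂˣ) (D : Dv F) :
    art ψ D = ∑ v ∈ D.support, D v • Additive.ofMul (ψ (frob E v)) := by
  conv_lhs => rw [← Finsupp.sum_single D]
  rw [Finsupp.sum, map_sum]
  exact Finset.sum_congr rfl fun v _ => art_single ψ v _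

end

end Pool.Agent.Q125.AR
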