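import Pool.Agent.Q125.AR.Base

/-! Project AR: job AR, Artin's law of reciprocity from the cyclic case. -/

set_option autoImplicit false
set_option linter.unusedSectionVars false
set_option linter.deprecated false

namespace Pool.Agent.Q125.AR

open NumberField IsDedekindDomain Pool.Agent.Q5.BR Pool.Agent.Q92.AR

section
variable {F : Type} [Field F] [NumberField F]

/-- a larger modulus gives a smaller ray -/
theorem Ray_mono {N N' : ℕ} (h : N' ∣ N) {x : Fˣ} (hx : x ∈ Ray F N) : x ∈ Ray F N' := by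
  refine ⟨fun v hv => ?_, hx.2⟩
  obtain ⟨k, rfl⟩ := h
  have h1 : ((N' * k : ℕ) : 𝓞 F) ∈ v.asIdeal := by
    rw [Nat.cast_mul]
    exact v.asIdeal.mul_mem_right _ hv
  refine (hx.1 v h1).trans ?_
  rw [Nat.cast_mul, map_mul]
  have h2 : v.valuation F (k : F) ≤ 1 := by
    have h3 := v.valuation_le_one (K := F) (k : 𝓞 F)
    simpa using h3
  exact mul_le_of_le_one_right' h2

theorem Ram_mono {E : Type} [Field E] [NumberField E] [Algebra F E] {N N' : ℕ} (h : N' ∣ N)
    (hR : Ram F E N') : Ram F E N := by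
  intro v hv
  obtain ⟨k, rfl⟩ := h
  rw [Nat.cast_mul]
  exact v.asIdeal.mul_mem_right _ (hR v hv)

end

/-- JOB AR -/
theorem ar (hARc : S_ARc) (hFR : S_FR) (hRF : S_RF) : S_AR := by
  classical
  intro F M _ _ _ _ _ _ ψ
  let H : Subgroup (M ≃ₐ[F] M) := ψ.ker
  let E : IntermediateField F M := IntermediateField.fixedField H
  have hfix : E.fixingSubgroup = H := IntermediateField.fixingSubgroup_fixedField H
  have hGal : IsGalois F E := IsGalois.of_fixedField_normal_subgroup H
  -- the restriction map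
  let res : (M ≃ₐ[F] M) →* (E ≃ₐ[F] E) := AlgEquiv.restrictNormalHom E
  have hres : Function.Surjective res := AlgEquiv.restrictNormalHom_surjective M
  have hker : res.ker = ψ.ker := by
    change res.ker = H
    rw [← hfix]
    exact IntermediateField.restrictNormalHom_ker E
  -- the character of the quotient
  have hle : res.ker ≤ ψ.ker := hker.le
  let ψ' : (E ≃ₐ[F] E) →* ℂˣ := (MonoidHom.liftOfSurjective res hres) ⟨ψ, hle⟩
  have hψ' : ∀ g, ψ' (res g) = ψ g := fun g =>
    MonoidHom.liftOfRightInverse_comp_apply res _ _ ⟨ψ, hle⟩ g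
  have hinj : Function.Injective ψ' := by
    rw [injective_iff_map_eq_one]
    intro g hg
    obtain ⟨g, rfl⟩ := hres g
    rw [hψ'] at hg
    have h : g ∈ res.ker := by
      rw [hker]
      exact hg
    exact h
  have hcyc : IsCyclic (E ≃ₐ[F] E) :=
    isCyclic_of_subgroup_isDomain ((Units.coeHom ℂ).comp ψ') fun a b hab =>
      hinj (Units.ext hab)
  obtain ⟨σ, hσ⟩ := hcyc.exists_generator
  obtain ⟨N1, hN1, hR1, h1⟩ := hARc F E σ hσ
  obtain ⟨N2, hN2, hR2⟩ := hRF F M
  refine ⟨N1 * N2, mul_ne_zero hN1 hN2, Ram_mono (dvd_mul_left N2 N1) hR2, fun x hx => ?_⟩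
  rw [← h1 ψ' x (Ray_mono (dvd_mul_right N1 N2) hx), art_eq_sum, art_eq_sum]
  refine Finset.sum_congr rfl fun v hv => ?_
  have hN : ((N1 * N2 : ℕ) : 𝓞 F) ∉ v.asIdeal := by
    intro h
    exact (Finsupp.mem_support_iff.1 hv) (prin_mem_Pr hx v h)
  have hu : Unramified M v := by
    by_contra h
    apply hN
    rw [Nat.cast_mul]
    exact v.asIdeal.mul_mem_left _ (hR2 v h)
  have huE : Unramified E v := hu.sub
  have h2 : IsFrobenius v (AlgEquiv.restrictNormal (frob M v) E) :=
    hFR.1 F E M v (frob M v) (frob_spec v)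
  have h3 := chi_frob huE (frob_spec (M := E) v) h2 ψ'
  have h4 : ψ' (AlgEquiv.restrictNormal (frob M v) E) = ψ (frob M v) := hψ' (frob M v)
  rw [h3, h4]

end Pool.Agent.Q125.AR
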