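import Pool.Agent.Q125.AR.NKer

/-! Project AR: job ARC, reciprocity for cyclic extensions. -/

set_option autoImplicit false
set_option linter.unusedSectionVars false
set_option linter.deprecated false

namespace Pool.Agent.Q125.AR

open NumberField IsDedekindDomain Pool.Agent.Q5.BR Pool.Agent.Q92.AR

theorem sum_zsmul' {ι A : Type*} [AddCommGroup A] (s : Finset ι) (c : ι → ℤ) (a : A) :
    (∑ i ∈ s, c i) • a = ∑ i ∈ s, c i • a := by
  exact map_sum ((zmultiplesHom A) a) c s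

section
variable {F E : Type} [Field F] [NumberField F] [Field E] [NumberField E] [Algebra F E]

/-- a finite cyclic group has an injective character -/
theorem exists_char [IsGalois F E] (σ : E ≃ₐ[F] E)
    (hσ : ∀ g : E ≃ₐ[F] E, g ∈ Subgroup.zpowers σ) :
    ∃ ψ : (E ≃ₐ[F] E) →* ℂˣ, Function.Injective ψ := by
  have hn : orderOf σ ≠ 0 := (isOfFinOrder_of_finite σ).orderOf_pos.ne'
  have hζ := Complex.isPrimitiveRoot_exp (orderOf σ) hn
  obtain ⟨u, hu⟩ := hζ.isUnit hn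
  have hu2 : orderOf u = orderOf σ := by
    rw [← orderOf_units, hu, hζ.eq_orderOf.symm]
  refine ⟨monoidHomOfForallMemZpowers hσ hu2.dvd, ?_⟩
  rw [injective_iff_map_eq_one]
  intro g hg
  obtain ⟨k, rfl⟩ := hσ g
  simp only at hg ⊢
  rw [map_zpow, monoidHomOfForallMemZpowers_apply_gen] at hg
  rw [← orderOf_dvd_iff_zpow_eq_one] at hg ⊢
  rw [← hu2]
  exact hg

theorem comm_of_cyclic {σ : E ≃ₐ[F] E} (hσ : ∀ g : E ≃ₐ[F] E, g ∈ Subgroup.zpowers σ)
    (g h : E ≃ₐ[F] E) : g * h = h * g := by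
  obtain ⟨i, rfl⟩ := hσ g
  obtain ⟨j, rfl⟩ := hσ h
  exact (Commute.refl σ).zpow_zpow i j

theorem frob_eq_of_cyclic [IsGalois F E] {σ : E ≃ₐ[F] E}
    (hσ : ∀ g : E ≃ₐ[F] E, g ∈ Subgroup.zpowers σ)
    {v : HeightOneSpectrum (𝓞 F)} (hv : Unramified E v) {g : E ≃ₐ[F] E} (hg : IsFrobenius v g) :
    frob E v = g := by
  obtain ⟨h, h1⟩ := isFrobenius_conj hv hg (frob_spec v)
  rw [h1, comm_of_cyclic hσ h⁻¹ g, mul_assoc, inv_mul_cancel, mul_one]

/-- The kernel of the Artin map lies in `HN`. -/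
theorem ker_le (hFR : S_FR) (hC : S_Cheb) (hCls : S_Cls) [IsGalois F E] (σ : E ≃ₐ[F] E)
    (hσ : ∀ g : E ≃ₐ[F] E, g ∈ Subgroup.zpowers σ) {N : ℕ} (hN : N ≠ 0) (hR : Ram F E N) :
    ∃ d : HeightOneSpectrum (𝓞 F) → ℕ, (∀ v, frob E v = σ ^ d v) ∧
      ∀ D ∈ Pr F N, ((Module.finrank F E : ℕ) : ℤ) ∣ ∑ v ∈ D.support, D v * (d v : ℤ) →
        D ∈ HN F E N := by
  classical
  have hex : ∀ v : HeightOneSpectrum (𝓞 F), ∃ k : ℕ, frob E v = σ ^ k := by
    intro v
    have h := hσ (frob E v)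
    rw [← mem_powers_iff_mem_zpowers] at h
    obtain ⟨k, hk⟩ := h
    exact ⟨k, hk.symm⟩
  choose d hd using hex
  refine ⟨d, hd, fun D hD hdvd => ?_⟩
  obtain ⟨r0, hr0, hu, hr0F⟩ := hC F E σ _ (finite_dvd (F := F) hN)
  have hr0N : (N : 𝓞 F) ∉ r0.asIdeal := hr0
  have hfr0 : frob E r0 = σ := frob_eq_of_cyclic hσ hu hr0F
  -- the comparison with `r0`
  have h1 : ∀ p : HeightOneSpectrum (𝓞 F), (N : 𝓞 F) ∉ p.asIdeal →
      Finsupp.single p (1 : ℤ) - (d p : ℤ) • Finsupp.single r0 (1 : ℤ) ∈ HN F E N := by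
    intro p hp
    obtain ⟨r, _, h2, h3⟩ := hCls F E σ hσ N hN hR p r0 (d p) 1 hp hr0N (hd p)
      (by rw [hfr0, pow_one])
    have h4 : Finsupp.single p (1 : ℤ) - (d p : ℤ) • Finsupp.single r0 (1 : ℤ) =
        (Finsupp.single p (1 : ℤ) - (d p : ℤ) • Finsupp.single r (1 : ℤ)) -
          (d p : ℤ) • (Finsupp.single r0 (1 : ℤ) - ((1 : ℕ) : ℤ) • Finsupp.single r (1 : ℤ)) := by
      rw [smul_sub, Nat.cast_one, one_smul]
      abel
    rw [h4]
    exact (HN F E N).sub_mem h2 ((HN F E N).zsmul_mem h3 _)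
  -- the multiple `n r0` is a norm
  have h2 : Finsupp.single r0 ((Module.finrank F E : ℕ) : ℤ) ∈ HN F E N := by
    have hlo : (above E r0).Nonempty := by
      by_contra h
      rw [Finset.not_nonempty_iff_eq_empty] at h
      have h3 := sum_rdeg hu
      rw [h, Finset.sum_empty] at h3
      have h4 : 0 < Module.finrank F E := Module.finrank_pos
      omega
    obtain ⟨w, hw⟩ := hlo
    have hw1 : w.under (𝓞 F) = r0 := mem_above.1 hw
    have hrd : rdeg F w = Module.finrank F E := by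
      have h3 := hFR.2.2.2 F E w σ (by rw [hw1]; exact hu) (by rw [hw1]; exact hr0F)
      rw [← h3, ← IsGalois.card_aut_eq_finrank F E]
      exact orderOf_eq_card_of_forall_mem_zpowers hσ
    have h4 : nmD F E (Finsupp.single w 1) = Finsupp.single r0 ((Module.finrank F E : ℕ) : ℤ) := by
      rw [nmD_single, hw1, hrd, mul_one]
    rw [← h4]
    refine AddSubgroup.mem_sup_right ⟨_, ?_, rfl⟩
    intro w' hw'
    rw [Finsupp.single_apply, if_neg]
    rintro rfl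
    apply hr0N
    rw [← hw1]
    exact mem_under.2 hw'
  -- the decomposition of `D`
  have h3 : D = ∑ v ∈ D.support, D v • (Finsupp.single v (1 : ℤ) -
      (d v : ℤ) • Finsupp.single r0 (1 : ℤ)) +
      (∑ v ∈ D.support, D v * (d v : ℤ)) • Finsupp.single r0 (1 : ℤ) := by
    rw [Finset.sum_smul, ← Finset.sum_add_distrib]
    have h4 : ∀ v ∈ D.support, D v • (Finsupp.single v (1 : ℤ) -
        (d v : ℤ) • Finsupp.single r0 (1 : ℤ)) + (D v * (d v : ℤ)) • Finsupp.single r0 (1 : ℤ) =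
        Finsupp.single v (D v) := by
      intro v _
      rw [smul_sub, mul_smul, sub_add_cancel, Finsupp.smul_single, smul_eq_mul, mul_one]
    rw [Finset.sum_congr rfl h4]
    exact (Finsupp.sum_single D).symm
  rw [h3]
  refine (HN F E N).add_mem (AddSubgroup.sum_mem _ fun v hv => AddSubgroup.zsmul_mem _ (h1 v ?_) _) ?_
  · intro h
    exact (Finsupp.mem_support_iff.1 hv) (hD v h)
  · obtain ⟨t, ht⟩ := hdvd
    have h5 : (∑ v ∈ D.support, D v * (d v : ℤ)) • Finsupp.single r0 (1 : ℤ) =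
        t • Finsupp.single r0 ((Module.finrank F E : ℕ) : ℤ) := by
      rw [ht, Finsupp.smul_single, Finsupp.smul_single, smul_eq_mul, smul_eq_mul, mul_one, mul_comm]
    rw [h5]
    exact (HN F E N).zsmul_mem h2 _

end

/-- JOB ARC -/
theorem arc (hFR : S_FR) (hC : S_Cheb) (hCls : S_Cls) (hNK : S_NKer) (hSec : S_Sec)
    (hFirst : S_First) : S_ARc := by
  classical
  intro F E _ _ _ _ _ _ σ hσ
  obtain ⟨N, hN, _, hR, h1⟩ := hFirst F E σ hσ 1 one_ne_zero
  refine ⟨N, hN, hR, ?_⟩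
  obtain ⟨h2, h3⟩ := hSec F E N hN
  have h4 : (HN F E N).relIndex (Pr F N) = Module.finrank F E := by
    rcases h1 with h1 | h1
    · exact absurd h1 h2
    · omega
  obtain ⟨ψ0, hψ0⟩ := exists_char σ hσ
  obtain ⟨d, hd, h5⟩ := ker_le hFR hC hCls σ hσ hN hR
  have hord : orderOf σ = Module.finrank F E := by
    rw [← IsGalois.card_aut_eq_finrank F E]
    exact orderOf_eq_card_of_forall_mem_zpowers hσ
  have hart : ∀ (ψ : (E ≃ₐ[F] E) →* ℂˣ) (D : Dv F),
      art ψ D = (∑ v ∈ D.support, D v * (d v : ℤ)) • Additive.ofMul (ψ σ) := by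
    intro ψ D
    rw [art_eq_sum, sum_zsmul']
    refine Finset.sum_congr rfl fun v _ => ?_
    rw [hd v, map_pow, ofMul_pow, mul_smul, natCast_zsmul]
  have hdvd : ∀ D : Dv F, art ψ0 D = 0 →
      ((Module.finrank F E : ℕ) : ℤ) ∣ ∑ v ∈ D.support, D v * (d v : ℤ) := by
    intro D hD
    rw [hart, ← ofMul_zpow, ← map_zpow] at hD
    have h6 : ψ0 (σ ^ (∑ v ∈ D.support, D v * (d v : ℤ))) = 1 := hD
    have h7 : σ ^ (∑ v ∈ D.support, D v * (d v : ℤ)) = 1 := hψ0 (by rw [h6, map_one])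
    rw [← hord]
    exact orderOf_dvd_iff_zpow_eq_one.2 h7
  -- the kernel lies in `HN`, with the same index
  have h8 : (art ψ0).ker ⊓ Pr F N ≤ HN F E N := fun D hD => h5 D hD.2 (hdvd D hD.1)
  have h9 := (hNK F E ψ0 N hN).2 hψ0
  have h10 : HN F E N ⊓ Pr F N ≤ (art ψ0).ker :=
    index_compare h8 (by rw [h9, ← h4]; exact h2) (by rw [h9]) h4
  intro ψ x hx
  have h11 : prin x ∈ HN F E N :=
    AddSubgroup.mem_sup_left (AddSubgroup.subset_closure ⟨x, hx, rfl⟩)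
  have h12 : art ψ0 (prin x) = 0 := h10 ⟨h11, prin_mem_Pr hx⟩
  obtain ⟨t, ht⟩ := hdvd _ h12
  rw [hart, ht, mul_smul, natCast_zsmul, ← ofMul_zpow, ← ofMul_pow, ← hord, ← map_zpow, ← map_pow,
    ← zpow_natCast, ← zpow_mul, mul_comm, zpow_mul, zpow_natCast, pow_orderOf_eq_one, one_zpow,
    map_one, ofMul_one]

end Pool.Agent.Q125.AR
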