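import Pool.Agent.Q125.AR.Base

/-! Project AR: jobs NKER and CYCK. -/

set_option autoImplicit false
set_option linter.unusedSectionVars false
set_option linter.deprecated false

namespace Pool.Agent.Q125.AR

open NumberField IsDedekindDomain Pool.Agent.Q5.BR Pool.Agent.Q92.AR

section
variable {F E : Type} [Field F] [NumberField F] [Field E] [NumberField E] [Algebra F E]

/-- Norms lie in the kernel of the Artin map. -/
theorem art_nmD (hFR : S_FR) [IsGalois F E] (ψ : (E ≃ₐ[F] E) →* ℂˣ) {N : ℕ}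
    (hR : Ram F E N) {D : Dv E} (hD : D ∈ Pr E N) : art ψ (nmD F E D) = 0 := by
  conv_lhs => rw [← Finsupp.sum_single D]
  rw [Finsupp.sum, map_sum, map_sum]
  refine Finset.sum_eq_zero fun w hw => ?_
  rw [nmD_single, art_single]
  have hNw : (N : 𝓞 E) ∉ w.asIdeal := by
    intro h
    exact (Finsupp.mem_support_iff.1 hw) (hD w h)
  have hu : Unramified E (w.under (𝓞 F)) := by
    by_contra h
    exact hNw (mem_under.1 (hR _ h))
  have ho := hFR.2.2.2 F E w (frob E (w.under (𝓞 F))) hu (frob_spec _)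
  rw [mul_comm, mul_smul, natCast_zsmul, ← ofMul_pow, ← map_pow, ← ho, pow_orderOf_eq_one, map_one,
    ofMul_one, smul_zero]

/-- The kernel of the Artin map for an injective character has index `[E : F]`. -/
theorem relIndex_ker_art (hC : S_Cheb) [IsGalois F E] {ψ : (E ≃ₐ[F] E) →* ℂˣ}
    (hψ : Function.Injective ψ) {N : ℕ} (hN : N ≠ 0) :
    (art ψ).ker.relIndex (Pr F N) = Module.finrank F E := by
  classical
  rw [AddSubgroup.relIndex_ker]
  have h : (Pr F N).map (art ψ) = (MonoidHom.toAdditive ψ).range := by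
    apply le_antisymm
    · rintro _ ⟨D, _, rfl⟩
      rw [art_eq_sum]
      refine AddSubgroup.sum_mem _ fun v _ => AddSubgroup.zsmul_mem _ ?_ _
      exact ⟨Additive.ofMul (frob E v), rfl⟩
    · rintro _ ⟨g, rfl⟩
      obtain ⟨v, hv, hu, hg⟩ := hC F E (Additive.toMul g) _ (finite_dvd (F := F) hN)
      refine ⟨Finsupp.single v 1, ?_, ?_⟩
      · intro v' hv'
        rw [Finsupp.single_apply, if_neg]
        rintro rfl
        exact hv hv'
      · rw [art_single, one_smul, chi_frob hu (frob_spec v) hg]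
        rfl
  rw [h, ← IsGalois.card_aut_eq_finrank F E]
  have hinj : Function.Injective (MonoidHom.toAdditive ψ) := hψ
  exact (Nat.card_congr (AddMonoidHom.ofInjective hinj).toEquiv).symm

end

/-- JOB NKER -/
theorem nker (hFR : S_FR) (hC : S_Cheb) : S_NKer := by
  intro F E _ _ _ _ _ _ ψ N hN
  exact ⟨fun hR D hD => art_nmD hFR ψ hR hD, fun hψ => relIndex_ker_art hC hψ hN⟩

section
variable {F E : Type} [Field F] [NumberField F] [Field E] [NumberField E] [Algebra F E]

/-- the group `HN` lies in the kernel of the Artin map, if the ray does -/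
theorem HN_le_ker (hNK : S_NKer) [IsGalois F E] (ψ : (E ≃ₐ[F] E) →* ℂˣ) {N : ℕ} (hN : N ≠ 0)
    (hR : Ram F E N) (h : ∀ x ∈ Ray F N, art ψ (prin x) = 0) : HN F E N ≤ (art ψ).ker := by
  unfold HN
  refine sup_le ?_ ?_
  · unfold RayD
    rw [AddSubgroup.closure_le]
    rintro _ ⟨x, hx, rfl⟩
    exact h x hx
  · rintro _ ⟨D, hD, rfl⟩
    exact (hNK F E ψ N hN).1 hR D hD

end

/-- the comparison of indices: `H ≤ K ≤ L` and `[L : H] ≤ n ≤ [L : K]` -/
theorem index_compare {A : Type} [AddCommGroup A] {H K L : AddSubgroup A} {n : ℕ} (hH : H ⊓ L ≤ K)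
    (h0 : H.relIndex L ≠ 0) (h1 : H.relIndex L ≤ n) (h2 : K.relIndex L = n) : K ⊓ L ≤ H := by
  have h3 : H ⊓ L ≤ K ⊓ L := le_inf hH inf_le_right
  have h4 := AddSubgroup.relIndex_mul_relIndex (H ⊓ L) (K ⊓ L) L h3 inf_le_right
  rw [AddSubgroup.inf_relIndex_right, AddSubgroup.inf_relIndex_right, h2] at h4
  have hn : 0 < n := lt_of_lt_of_le (Nat.pos_of_ne_zero h0) h1
  have h5 : (H ⊓ L).relIndex (K ⊓ L) ≤ 1 := by
    by_contra hc
    have h6 : 2 ≤ (H ⊓ L).relIndex (K ⊓ L) := by omega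
    have h7 : 2 * n ≤ (H ⊓ L).relIndex (K ⊓ L) * n := Nat.mul_le_mul_right n h6
    omega
  have h6 : (H ⊓ L).relIndex (K ⊓ L) ≠ 0 := by
    intro hc
    rw [hc, zero_mul] at h4
    exact h0 h4.symm
  have h7 : (H ⊓ L).relIndex (K ⊓ L) = 1 := by omega
  exact (AddSubgroup.relIndex_eq_one.1 h7).trans inf_le_left

/-- JOB CYCK -/
theorem cycK (hCyc : S_Cyc) (hNK : S_NKer) (hSec : S_Sec) : S_CycK := by
  intro F E C _ _ _ _ _ _ _ _ _ _ _ m _ _ N hN hm hR ψ hψ D hD hD0
  have h1 : HN F E N ≤ (art ψ).ker := HN_le_ker hNK ψ hN hR (hCyc F E C m N hN hm ψ)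
  obtain ⟨h2, h3⟩ := hSec F E N hN
  have h4 := (hNK F E ψ N hN).2 hψ
  exact index_compare (inf_le_left.trans h1) h2 h3 h4 ⟨hD0, hD⟩

end Pool.Agent.Q125.AR
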